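import Pool.Agent.H22.W.Def
import Pool.Agent.H62.EF.LimL
import Pool.Agent.H62.EF.ZalA
import Pool.Agent.H36.BP.Brody

/-!
# W Zal: curves of bounded length have bounded derivative

Let `n` be a nonpositively curved pseudo-length such that no nonconstant Brody curve has length zero.  Then the entire curves `F` in `X` with
`n (F') ≤ 1` have `fs (F, F') ≤ L`.  The proof is the one of `H92/TH/Zal.lean` (symmetric differentials).
-/

set_option autoImplicit false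

open Topology Filter Metric

namespace Pool.Agent.H22.W

open Pool.Agent.H36.BP (EN fs wd)
open Pool.Agent.H14.PP (IsCone Chart Form Tan CurveAt IsOpenPart)
open Pool.Agent.H62.EF (Charts pr limit_curves rescale_fs)

variable {N : ℕ} {X : Set (EN N)}

/-- the length of the derivative does not depend on the lift -/
theorem PseudoLength.lift_eq (hX : IsCone X) (n : PseudoLength X) {F G : ℂ → EN N} {z : ℂ} (hF : CurveAt X F z) (hG : CurveAt X G z)
    (h : ∀ᶠ w in 𝓝 z, ∃ c : ℂ, c ≠ 0 ∧ F w = c • G w) : n.toFun (F z) (deriv F z) = n.toFun (G z) (deriv G z) := by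
  have hG0 : G z ≠ 0 := hX.ne_zero hG.2.self_of_nhds
  obtain ⟨i, hi⟩ : ∃ i, G z i ≠ 0 := by
    by_contra hcon
    push Not at hcon
    exact hG0 (by ext i; simpa using hcon i)
  have hFi : DifferentiableAt ℂ (fun w => F w i) z :=
    (EuclideanSpace.proj (𝕜 := ℂ) i : EN N →L[ℂ] ℂ).differentiableAt.comp z hF.1.differentiableAt
  have hGi : DifferentiableAt ℂ (fun w => G w i) z :=
    (EuclideanSpace.proj (𝕜 := ℂ) i : EN N →L[ℂ] ℂ).differentiableAt.comp z hG.1.differentiableAt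
  obtain ⟨c, hc⟩ : ∃ c : ℂ → ℂ, c = fun w => F w i / G w i := ⟨_, rfl⟩
  have hcd : DifferentiableAt ℂ c z := by rw [hc]; exact hFi.div hGi hi
  have hne : ∀ᶠ w in 𝓝 z, G w i ≠ 0 := hGi.continuousAt.eventually_ne hi
  have hev : ∀ᶠ w in 𝓝 z, c w ≠ 0 ∧ F w = c w • G w := by
    filter_upwards [h, hne] with w hw hwi
    obtain ⟨b, hb, hFw⟩ := hw
    have h1 : c w = b := by
      rw [hc]
      show F w i / G w i = b
      rw [hFw, PiLp.smul_apply, smul_eq_mul, mul_div_cancel_right₀ _ hwi]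
    rw [h1]
    exact ⟨hb, hFw⟩
  have hd : deriv F z = c z • deriv G z + deriv c z • G z := by
    have h1 : F =ᶠ[𝓝 z] fun w => c w • G w := hev.mono fun w hw => hw.2
    rw [h1.deriv_eq]
    exact (hcd.hasDerivAt.smul hG.1.differentiableAt.hasDerivAt).deriv
  obtain ⟨hc0, hFz⟩ := hev.self_of_nhds
  rw [hd, hFz]
  exact n.inv hX (tan_curve hG) hc0 _

/-- The values of the length on the derivatives of a convergent sequence of curves. -/
theorem PseudoLength.tendsto_curve (n : PseudoLength X) {l : Filter ℕ} {φ : ℕ → ℂ → EN N} {ψ : ℂ → EN N}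
    {z₀ : ℂ} {r : ℝ} (hr : 0 < r) (hφ : ∀ᶠ k in l, DifferentiableOn ℂ (φ k) (ball z₀ r) ∧ ∀ z ∈ ball z₀ r, φ k z ∈ X)
    (hψ : DifferentiableOn ℂ ψ (ball z₀ r)) (hψX : ∀ z ∈ ball z₀ r, ψ z ∈ X) (hlim : TendstoLocallyUniformlyOn φ ψ l (ball z₀ r)) :
    Tendsto (fun k => n.toFun (φ k z₀) (deriv (φ k) z₀)) l (𝓝 (n.toFun (ψ z₀) (deriv ψ z₀))) := by
  have hz₀ : z₀ ∈ ball z₀ r := mem_ball_self hr
  have hnb : ball z₀ r ∈ 𝓝 z₀ := isOpen_ball.mem_nhds hz₀
  have h1 : Tendsto (fun k => φ k z₀) l (𝓝 (ψ z₀)) := hlim.tendsto_at hz₀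
  have h2 : Tendsto (fun k => deriv (φ k) z₀) l (𝓝 (deriv ψ z₀)) := by
    have h3 := hlim.deriv (hφ.mono fun k hk => hk.1) isOpen_ball
    exact h3.tendsto_at hz₀
  refine n.tendsto ?_ (tan_curve ⟨hψ.analyticAt hnb, ?_⟩) h1 h2
  · filter_upwards [hφ] with k hk
    refine tan_curve ⟨hk.1.analyticAt hnb, ?_⟩
    filter_upwards [hnb] with z hz using hk.2 z hz
  · filter_upwards [hnb] with z hz using hψX z hz

/-- The chain rule for affine maps. -/
theorem PseudoLength.comp_affine (n : PseudoLength X) {F : ℂ → EN N} (hF : Differentiable ℂ F) (hFX : ∀ z, F z ∈ X) (a b z : ℂ) :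
    n.toFun (F (b + a * z)) (deriv (fun ζ => F (b + a * ζ)) z) = ‖a‖ * n.toFun (F (b + a * z)) (deriv F (b + a * z)) := by
  have h1 : HasDerivAt (fun ζ : ℂ => b + a * ζ) a z := by
    simpa using ((hasDerivAt_id z).const_mul a).const_add b
  have h2 : deriv (fun ζ => F (b + a * ζ)) z = a • deriv F (b + a * z) :=
    ((hF (b + a * z)).hasDerivAt.scomp z h1).deriv
  rw [h2]
  exact n.smul _ _ (tan_entire hF hFX _) a

theorem exists_lipschitz (hX : IsCone X) (n : PseudoLength X) (hNT : n.NoNullBrody) :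
    ∃ L : ℝ, 0 < L ∧ ∀ F : ℂ → EN N, Differentiable ℂ F → (∀ z, F z ∈ X) →
      (∀ z, n.toFun (F z) (deriv F z) ≤ 1) → ∀ z, fs (F z) (deriv F z) ≤ L := by
  by_contra hcon
  push Not at hcon
  have hbig : ∀ k : ℕ, ∃ F : ℂ → EN N, Differentiable ℂ F ∧ (∀ z, F z ∈ X) ∧ (∀ z, n.toFun (F z) (deriv F z) ≤ 1) ∧
      ∃ z, 4 * ((k : ℝ) + 1) < fs (F z) (deriv F z) := fun k => hcon _ (by positivity)
  choose F hFd hFX hFn zc hzc using hbig
  have hX0 : ∀ x ∈ X, x ≠ 0 := fun x hx h => hX.zero_notMem (h ▸ hx)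
  have hresc : ∀ k : ℕ, ∃ (z₀ : ℂ) (a : ℝ), 4 * ((k : ℝ) + 1) < a ∧
      fs (F k (z₀ + zc k)) (deriv (fun ζ => F k (z₀ + ((a⁻¹ : ℝ) : ℂ) * ζ + zc k)) 0) = 1 ∧
      ∀ ζ ∈ ball (0 : ℂ) (k + 1), fs (F k (z₀ + ((a⁻¹ : ℝ) : ℂ) * ζ + zc k))
        (deriv (fun ζ => F k (z₀ + ((a⁻¹ : ℝ) : ℂ) * ζ + zc k)) ζ) ≤ 2 := by
    intro k
    have hd : Differentiable ℂ (fun z => F k (z + zc k)) := (hFd k).comp (differentiable_id.add_const _)
    refine rescale_fs hd (fun z => hX0 _ (hFX k _)) k ?_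
    rw [deriv_comp_add_const]
    simpa using hzc k
  choose z₀ a ha h1 h2 using hresc
  have ha0 : ∀ k, 0 < a k := fun k => lt_trans (by positivity) (ha k)
  have hform : ∀ k ζ, z₀ k + (((a k)⁻¹ : ℝ) : ℂ) * ζ + zc k = (z₀ k + zc k) + (((a k)⁻¹ : ℝ) : ℂ) * ζ := fun k ζ => by ring
  simp only [hform] at h1 h2
  set G : ℕ → ℂ → EN N := fun k ζ => F k ((z₀ k + zc k) + (((a k)⁻¹ : ℝ) : ℂ) * ζ) with hGdef
  have hGd : ∀ k, Differentiable ℂ (G k) := by
    intro k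
    exact (hFd k).comp ((differentiable_id.const_mul _).const_add _)
  have hGX : ∀ k ζ, G k ζ ∈ X := fun k ζ => hFX k _
  have hG1 : ∀ k, fs (G k 0) (deriv (G k) 0) = 1 := by
    intro k
    have := h1 k
    rw [hGdef]
    simpa only [mul_zero, add_zero] using this
  have hGn : ∀ k ζ, n.toFun (G k ζ) (deriv (G k) ζ) ≤ (a k)⁻¹ := by
    intro k ζ
    have h3 := n.comp_affine (hFd k) (hFX k) (((a k)⁻¹ : ℝ) : ℂ) (z₀ k + zc k) ζ
    rw [show n.toFun (G k ζ) (deriv (G k) ζ) = _ from h3, Complex.norm_real, Real.norm_of_nonneg (inv_nonneg.mpr (ha0 k).le)]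
    calc (a k)⁻¹ * _ ≤ (a k)⁻¹ * 1 := mul_le_mul_of_nonneg_left (hFn k _) (inv_nonneg.mpr (ha0 k).le)
      _ = (a k)⁻¹ := mul_one _
  have hGn0 : ∀ k ζ, 0 ≤ n.toFun (G k ζ) (deriv (G k) ζ) := fun k ζ => n.nonneg _ _ (tan_entire (hGd k) (hGX k) ζ)
  set 𝒰 : Ultrafilter ℕ := hyperfilter ℕ with h𝒰
  have hle : (𝒰 : Filter ℕ) ≤ atTop := Nat.hyperfilter_le_atTop
  have hρ : Tendsto (fun k : ℕ => (k : ℝ) + 1) 𝒰 atTop :=
    (tendsto_atTop_add_const_right _ _ tendsto_natCast_atTop_atTop).mono_left hle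
  have hainv : Tendsto (fun k => (a k)⁻¹) 𝒰 (𝓝 0) := by
    have h3 : Tendsto a 𝒰 atTop := by
      refine tendsto_atTop_mono (fun k => ?_) hρ
      have := ha k
      have h4 : (0 : ℝ) ≤ k := Nat.cast_nonneg k
      linarith
    exact tendsto_inv_atTop_zero.comp h3
  obtain ⟨H, hH, hHX, hpr, hfs, hloc⟩ := limit_curves hX (L := 2) two_pos 𝒰 G (fun k : ℕ => (k : ℝ) + 1) hρ
    (Eventually.of_forall fun k => ⟨(hGd k).differentiableOn, fun z hz => ⟨hGX k z, h2 k z hz⟩⟩)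
  have hH0 : ∀ z, H z ≠ 0 := fun z => hX0 _ (hHX z)
  have hone : fs (H 0) (deriv H 0) = 1 := by
    have h3 := hfs 0
    simp only [hG1] at h3
    exact (tendsto_nhds_unique h3 tendsto_const_nhds)
  have htwo : ∀ z, fs (H z) (deriv H z) ≤ 2 := by
    intro z
    refine le_of_tendsto (hfs z) ?_
    filter_upwards [hρ.eventually_gt_atTop ‖z‖] with k hk
    exact h2 k z (by rwa [mem_ball_zero_iff])
  have hn0 : ∀ z, n.toFun (H z) (deriv H z) = 0 := by
    intro z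
    obtain ⟨r, φ, ψ, hr, hφ, hψ, hψH, hlim⟩ := hloc z
    have hz : z ∈ ball z r := mem_ball_self hr
    have hnb : ball z r ∈ 𝓝 z := isOpen_ball.mem_nhds hz
    have hψX : ∀ w ∈ ball z r, ψ w ∈ X := by
      intro w hw
      obtain ⟨c, hc, h3⟩ := hψH w hw
      rw [h3]
      exact hX.smul_mem _ (hHX w) c hc
    have hφX : ∀ᶠ k in (𝒰 : Filter ℕ), DifferentiableOn ℂ (φ k) (ball z r) ∧ ∀ w ∈ ball z r, φ k w ∈ X := by
      filter_upwards [hφ] with k hk
      refine ⟨hk.1, fun w hw => ?_⟩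
      obtain ⟨c, hc, h3⟩ := hk.2 w hw
      rw [h3]
      exact hX.smul_mem _ (hGX k w) c hc
    have h3 := n.tendsto_curve hr hφX hψ hψX hlim
    have h4 : ∀ᶠ k in (𝒰 : Filter ℕ), 0 ≤ n.toFun (φ k z) (deriv (φ k) z) ∧ n.toFun (φ k z) (deriv (φ k) z) ≤ (a k)⁻¹ := by
      filter_upwards [hφ, hφX] with k hk hk2
      have h5 : n.toFun (φ k z) (deriv (φ k) z) = n.toFun (G k z) (deriv (G k) z) := by
        refine n.lift_eq hX ⟨hk.1.analyticAt hnb, ?_⟩ ⟨(hGd k).analyticAt z, Eventually.of_forall (hGX k)⟩ ?_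
        · filter_upwards [hnb] with w hw using hk2.2 w hw
        · filter_upwards [hnb] with w hw using hk.2 w hw
      rw [h5]
      exact ⟨hGn0 k z, hGn k z⟩
    have h6 : n.toFun (ψ z) (deriv ψ z) = 0 := by
      have h7 : Tendsto (fun k => n.toFun (φ k z) (deriv (φ k) z)) 𝒰 (𝓝 0) :=
        squeeze_zero' (h4.mono fun k hk => hk.1) (h4.mono fun k hk => hk.2) hainv
      exact tendsto_nhds_unique h3 h7
    rw [← h6]
    symm
    refine n.lift_eq hX ⟨hψ.analyticAt hnb, ?_⟩ ⟨hH.analyticAt z, Eventually.of_forall hHX⟩ ?_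
    · filter_upwards [hnb] with w hw using hψX w hw
    · filter_upwards [hnb] with w hw using hψH w hw
  have hK : ∀ z w, ∃ c : ℂ, H (0 + (1 / 2 : ℂ) * z) = c • H (0 + (1 / 2 : ℂ) * w) := by
    have hd : Differentiable ℂ (fun z : ℂ => H (0 + (1 / 2 : ℂ) * z)) := hH.comp ((differentiable_id.const_mul _).const_add _)
    have hder : ∀ z, deriv (fun ζ : ℂ => H (0 + (1 / 2 : ℂ) * ζ)) z = (1 / 2 : ℂ) • deriv H (0 + (1 / 2 : ℂ) * z) := by
      intro z
      have h3 : HasDerivAt (fun ζ : ℂ => 0 + (1 / 2 : ℂ) * ζ) (1 / 2 : ℂ) z := by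
        simpa using ((hasDerivAt_id z).const_mul (1 / 2 : ℂ)).const_add 0
      exact ((hH (0 + (1 / 2 : ℂ) * z)).hasDerivAt.scomp z h3).deriv
    refine hNT (fun z : ℂ => H (0 + (1 / 2 : ℂ) * z)) hd (fun z => hHX _) ?_ ?_
    · intro z
      rw [hder z, Pool.Agent.H36.BP.fs_smul_right]
      have h3 := htwo (0 + (1 / 2 : ℂ) * z)
      have h4 : ‖(1 / 2 : ℂ)‖ = 1 / 2 := by norm_num
      rw [h4]
      linarith
    · intro z
      rw [n.comp_affine hH hHX (1 / 2 : ℂ) 0 z, hn0, mul_zero]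
  obtain ⟨b, hb⟩ := Pool.Agent.H36.BP.Brody_deriv_line (hH 0) (fun z => by
    have h3 := hK (2 * z) 0
    simpa using h3)
  have h3 : wd (H 0) (deriv H 0) = 0 := (Pool.Agent.H36.BP.wd_eq_zero (hH0 0)).mpr ⟨b, hb⟩
  unfold fs at hone
  rw [h3, zero_div] at hone
  exact zero_ne_one hone

end Pool.Agent.H22.W
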