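import Pool.Agent.H22.W.Tan

/-!
# W Def: nonpositively curved pseudo-lengths on a projective surface

`X` is the cone (without `0`) of a smooth projective surface.
-/

set_option autoImplicit false

open Topology Filter Metric

namespace Pool.Agent.H22.W

open Pool.Agent.H36.BP (EN fs wd)
open Pool.Agent.H14.PP (IsCone Chart Tan CurveAt IsOpenPart)
open Pool.Agent.H62.EF (Charts)

variable {N : ℕ}

/-- A nonpositively curved pseudo-length (a Finsler metric with nonpositive holomorphic sectional curvature, which may vanish on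
nonzero vectors) on the surface whose cone is `X`: a continuous function on the tangent bundle, absolutely homogeneous on the tangent
spaces, whose square has the sub-mean value property along every holomorphic disc. -/
structure PseudoLength (X : Set (EN N)) where
  /-- the length of the tangent vector `v` at the point `x` -/
  toFun : EN N → EN N → ℝ
  nonneg : ∀ x v, Tan X x v → 0 ≤ toFun x v
  add_smul : ∀ x v, Tan X x v → ∀ a : ℂ, toFun x (v + a • x) = toFun x v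
  smul : ∀ x v, Tan X x v → ∀ a : ℂ, toFun x (a • v) = ‖a‖ * toFun x v
  scale : ∀ x v, Tan X x v → ∀ c : ℂ, c ≠ 0 → toFun (c • x) (c • v) = toFun x v
  continuous : ContinuousOn (fun p : EN N × EN N => toFun p.1 p.2) {p | Tan X p.1 p.2}
  curved : ∀ (U : Set ℂ) (F : ℂ → EN N), IsOpen U → DifferentiableOn ℂ F U → (∀ z ∈ U, F z ∈ X) →
    ∀ (c : ℂ) (r : ℝ), 0 < r → closedBall c r ⊆ U →
      toFun (F c) (deriv F c) ^ 2 ≤ Real.circleAverage (fun z => toFun (F z) (deriv F z) ^ 2) c r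

/-- No nonconstant entire curve with `|F'| ≤ 1` has length zero. -/
def PseudoLength.NoNullBrody {X : Set (EN N)} (n : PseudoLength X) : Prop :=
  ∀ F : ℂ → EN N, Differentiable ℂ F → (∀ z, F z ∈ X) → (∀ z, fs (F z) (deriv F z) ≤ 1) →
    (∀ z, n.toFun (F z) (deriv F z) = 0) → ∀ z w, ∃ c : ℂ, F z = c • F w

variable {X : Set (EN N)}

theorem PseudoLength.tendsto (n : PseudoLength X) {ι : Type*} {l : Filter ι}
    {x v : ι → EN N} {x₀ v₀ : EN N} (h : ∀ᶠ i in l, Tan X (x i) (v i)) (h₀ : Tan X x₀ v₀)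
    (hx : Tendsto x l (𝓝 x₀)) (hv : Tendsto v l (𝓝 v₀)) :
    Tendsto (fun i => n.toFun (x i) (v i)) l (𝓝 (n.toFun x₀ v₀)) := by
  have h1 : ContinuousWithinAt (fun p : EN N × EN N => n.toFun p.1 p.2) {p | Tan X p.1 p.2} (x₀, v₀) := n.continuous _ h₀
  have h2 : Tendsto (fun i => (x i, v i)) l (𝓝[{p | Tan X p.1 p.2}] (x₀, v₀)) :=
    tendsto_nhdsWithin_iff.2 ⟨hx.prodMk_nhds hv, h⟩
  exact h1.tendsto.comp h2

theorem tan_entire {F : ℂ → EN N} (hF : Differentiable ℂ F) (hFX : ∀ z, F z ∈ X) (z : ℂ) : Tan X (F z) (deriv F z) :=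
  tan_curve ⟨hF.analyticAt z, Eventually.of_forall hFX⟩

/-- the length of the derivative of an entire curve is continuous -/
theorem PseudoLength.continuous_curve (n : PseudoLength X) {F : ℂ → EN N} (hF : Differentiable ℂ F) (hFX : ∀ z, F z ∈ X) :
    Continuous fun z => n.toFun (F z) (deriv F z) := by
  rw [continuous_iff_continuousAt]
  intro z₀
  have hc : Continuous (deriv F) := (hF.contDiff (n := 1)).continuous_deriv le_rfl
  exact n.tendsto (Eventually.of_forall fun z => tan_entire hF hFX z) (tan_entire hF hFX z₀)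
    hF.continuous.continuousAt.tendsto hc.continuousAt.tendsto

theorem PseudoLength.inv (hX : IsCone X) (n : PseudoLength X) {x v : EN N} (h : Tan X x v) {c : ℂ} (hc : c ≠ 0) (a : ℂ) :
    n.toFun (c • x) (c • v + a • x) = n.toFun x v := by
  have h1 : c • v + a • x = c • v + (a / c) • (c • x) := by
    rw [smul_smul, div_mul_cancel₀ _ hc]
  rw [h1, n.add_smul _ _ (tan_smul hX h hc), n.scale _ _ h _ hc]

/-- the pseudo-length in a chart -/
noncomputable def coef (n : PseudoLength X) (χ : Chart X) (y : (ℂ × ℂ) × (ℂ × ℂ)) : ℝ :=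
  n.toFun (χ.σ y.1) (fderiv ℂ χ.σ y.1 y.2)

theorem eq_coef (hX : IsCone X) (n : PseudoLength X) (χ : Chart X) {x v : EN N} (h : Tan X x v)
    (hU : x ∈ χ.U) : n.toFun x v = coef n χ (χ.q x, fderiv ℂ χ.q x v) := by
  obtain ⟨hb, c, a, hc, h1, h2⟩ := tan_chart hX χ h hU
  have ht : Tan X (χ.σ (χ.q x)) (fderiv ℂ χ.σ (χ.q x) (fderiv ℂ χ.q x v)) :=
    χ.tan (isOpenPart_self hX) hb (χ.σ_mem _ hb).1 _
  have h3 := n.inv hX ht hc (a * c)
  unfold coef
  rw [← h3]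
  have h4 : c • fderiv ℂ χ.σ (χ.q x) (fderiv ℂ χ.q x v) + (a * c) • χ.σ (χ.q x) = v := by
    conv_rhs => rw [h2]
    congr 1
    conv_rhs => rw [h1]
    rw [smul_smul]
  rw [h4, ← h1]

theorem tan_sigma (hX : IsCone X) (χ : Chart X) {p : ℂ × ℂ} (hp : p ∈ ball (0 : ℂ × ℂ) 2) (w : ℂ × ℂ) :
    Tan X (χ.σ p) (fderiv ℂ χ.σ p w) := χ.tan (isOpenPart_self hX) hp (χ.σ_mem p hp).1 _

theorem coef_cont (hX : IsCone X) (n : PseudoLength X) (χ : Chart X) {p : ℂ × ℂ} (hp : p ∈ ball (0 : ℂ × ℂ) 2)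
    (w : ℂ × ℂ) : ContinuousAt (coef n χ) (p, w) := by
  have hs : AnalyticAt ℂ χ.σ p := χ.σ_an p hp
  have h1 : Tendsto (fun y : (ℂ × ℂ) × (ℂ × ℂ) => χ.σ y.1) (𝓝 (p, w)) (𝓝 (χ.σ p)) :=
    hs.continuousAt.tendsto.comp continuousAt_fst.tendsto
  have h2 : Tendsto (fun y : (ℂ × ℂ) × (ℂ × ℂ) => fderiv ℂ χ.σ y.1) (𝓝 (p, w)) (𝓝 (fderiv ℂ χ.σ p)) :=
    hs.fderiv.continuousAt.tendsto.comp continuousAt_fst.tendsto
  have hcb : Continuous fun p : ((ℂ × ℂ) →L[ℂ] EN N) × (ℂ × ℂ) => p.1 p.2 := isBoundedBilinearMap_apply.continuous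
  have h3 : Tendsto (fun y : (ℂ × ℂ) × (ℂ × ℂ) => fderiv ℂ χ.σ y.1 y.2) (𝓝 (p, w)) (𝓝 (fderiv ℂ χ.σ p w)) :=
    (hcb.tendsto (fderiv ℂ χ.σ p, w)).comp (h2.prodMk_nhds continuousAt_snd.tendsto)
  refine n.tendsto ?_ (tan_sigma hX χ hp w) h1 h3
  have h4 : ∀ᶠ y in 𝓝 (p, w), y.1 ∈ ball (0 : ℂ × ℂ) 2 := continuousAt_fst.eventually (isOpen_ball.mem_nhds hp)
  filter_upwards [h4] with y hy
  exact tan_sigma hX χ hy _

theorem coef_smul (hX : IsCone X) (n : PseudoLength X) (χ : Chart X) {p : ℂ × ℂ} (hp : p ∈ ball (0 : ℂ × ℂ) 2)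
    (w : ℂ × ℂ) (a : ℂ) : coef n χ (p, a • w) = ‖a‖ * coef n χ (p, w) := by
  unfold coef
  simp only [map_smul]
  exact n.smul _ _ (tan_sigma hX χ hp w) _

/-- the bound in the middle of a chart -/
theorem coef_bound (hX : IsCone X) (n : PseudoLength X) (χ : Chart X) :
    ∃ C : ℝ, 0 ≤ C ∧ ∀ p ∈ closedBall (0 : ℂ × ℂ) 1, ∀ w, coef n χ (p, w) ≤ C * ‖w‖ := by
  have hcomp : IsCompact (closedBall (0 : ℂ × ℂ) 1 ×ˢ sphere (0 : ℂ × ℂ) 1) :=
    (isCompact_closedBall _ _).prod (isCompact_sphere _ _)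
  obtain ⟨C, hC⟩ := hcomp.exists_bound_of_continuousOn (f := coef n χ) (by
    rintro ⟨p, w⟩ ⟨hp, -⟩
    exact (coef_cont hX n χ (closedBall_subset_ball (by norm_num) hp) w).continuousWithinAt)
  have hC0 : 0 ≤ C := by
    have := hC ((0 : ℂ × ℂ), (1, 0)) ⟨mem_closedBall_self zero_le_one, by
      rw [mem_sphere_zero_iff_norm, Prod.norm_def]; simp⟩
    exact (norm_nonneg _).trans this
  refine ⟨C, hC0, fun p hp w => ?_⟩
  have hp2 : p ∈ ball (0 : ℂ × ℂ) 2 := closedBall_subset_ball (by norm_num) hp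
  rcases eq_or_ne w 0 with rfl | hw
  · have h1 := coef_smul hX n χ hp2 0 0
    rw [zero_smul, norm_zero, zero_mul] at h1
    rw [h1, norm_zero, mul_zero]
  · have hw0 : ‖w‖ ≠ 0 := norm_ne_zero_iff.2 hw
    have h1 : w = ((‖w‖ : ℝ) : ℂ) • (((‖w‖ : ℝ) : ℂ)⁻¹ • w) := by
      rw [smul_smul, mul_inv_cancel₀ (by exact_mod_cast hw0), one_smul]
    have h2 : ‖(((‖w‖ : ℝ) : ℂ)⁻¹ • w)‖ = 1 := by
      rw [norm_smul, norm_inv, Complex.norm_real, norm_norm, inv_mul_cancel₀ hw0]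
    rw [h1, coef_smul hX n χ hp2, Complex.norm_real, norm_norm, ← h1, mul_comm]
    refine mul_le_mul_of_nonneg_right ?_ (norm_nonneg _)
    exact (le_abs_self _).trans (hC (p, _) ⟨hp, by rw [mem_sphere_zero_iff_norm]; exact h2⟩)

theorem fs_scale (x v : EN N) {c : ℂ} (hc0 : c ≠ 0) : fs (c • x) (c • v) = fs x v := by
  have h5 : wd (c • x) (c • v) = ‖c‖ ^ 2 * wd x v := by
    unfold wd
    rw [norm_smul, norm_smul, inner_smul_left, inner_smul_right, norm_mul, norm_mul, RCLike.norm_conj]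
    rw [show (‖c‖ * ‖x‖) ^ 2 * (‖c‖ * ‖v‖) ^ 2 - (‖c‖ * (‖c‖ * ‖(inner ℂ x v : ℂ)‖)) ^ 2 =
      (‖c‖ ^ 2) ^ 2 * (‖x‖ ^ 2 * ‖v‖ ^ 2 - ‖(inner ℂ x v : ℂ)‖ ^ 2) by ring]
    rw [Real.sqrt_mul (by positivity), Real.sqrt_sq (by positivity)]
  unfold fs
  rw [h5, norm_smul, mul_pow]
  exact mul_div_mul_left _ _ (pow_ne_zero _ (norm_ne_zero_iff.2 hc0))

/-- A pseudo-length is bounded by the Fubini-Study length. -/
theorem PseudoLength.bound (hX : IsCone X) (hch : Charts X) (n : PseudoLength X) :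
    ∃ C : ℝ, 0 < C ∧ ∀ x v, Tan X x v → n.toFun x v ≤ C * fs x v := by
  classical
  obtain ⟨S, hS⟩ : ∃ S : Set (EN N), S = sphere (0 : EN N) 1 ∩ insert 0 X := ⟨_, rfl⟩
  have hcomp : IsCompact S := by rw [hS]; exact (isCompact_sphere _ _).inter_right hX.closed
  have hSX : ∀ x ∈ S, x ∈ X := by
    intro x hx
    rw [hS] at hx
    rcases hx.2 with h | h
    · exfalso
      have := hx.1
      rw [mem_sphere_zero_iff_norm, h, norm_zero] at this
      exact zero_ne_one this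
    · exact h
  have hloc : ∀ x ∈ S, ∃ C : ℝ, 0 ≤ C ∧ ∀ᶠ y in 𝓝 x, ∀ v, Tan X y v → n.toFun y v ≤ C * fs y v := by
    intro x hx
    have hxX := hSX x hx
    obtain ⟨χ, hχU, hχ0⟩ := hch x hxX
    obtain ⟨C₁, hC₁, h1⟩ := coef_bound hX n χ
    obtain ⟨C₂, hC₂, h2, -⟩ := χ.exists_fs_bound hX
    refine ⟨C₁ * C₂, by positivity, ?_⟩
    have h3 : ∀ᶠ y in 𝓝 x, y ∈ χ.U := χ.isOpen_U.mem_nhds hχU
    have h4 : ∀ᶠ y in 𝓝 x, χ.q y ∈ closedBall (0 : ℂ × ℂ) 1 := by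
      have := (χ.q_an x hχU).continuousAt
      refine this.eventually ?_
      rw [hχ0]
      exact closedBall_mem_nhds _ one_pos
    filter_upwards [h3, h4] with y hy1 hy2 v hv
    rw [eq_coef hX n χ hv hy1]
    refine (h1 _ hy2 _).trans ?_
    rw [mul_assoc]
    refine mul_le_mul_of_nonneg_left ?_ hC₁
    exact h2 y (tan_mem hv) hy1 (by simpa using hy2) v
  choose! C hC0 hC using hloc
  obtain ⟨t, htS, ht⟩ := hcomp.elim_nhds_subcover (fun x => {y | ∀ v, Tan X y v → n.toFun y v ≤ C x * fs y v})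
    fun x hx => hC x hx
  have hfs0 : ∀ x v : EN N, 0 ≤ fs x v := fun x v => by
    unfold fs wd
    positivity
  refine ⟨∑ x ∈ t, C x + 1, ?_, fun x v hv => ?_⟩
  · have : 0 ≤ ∑ x ∈ t, C x := Finset.sum_nonneg fun x hx => hC0 x (htS x hx)
    linarith
  · have hxX := tan_mem hv
    have hx0 : x ≠ 0 := hX.ne_zero hxX
    have hn : ‖x‖ ≠ 0 := norm_ne_zero_iff.2 hx0
    obtain ⟨c, hc⟩ : ∃ c : ℂ, c = (((‖x‖ : ℝ) : ℂ))⁻¹ := ⟨_, rfl⟩
    have hc0 : c ≠ 0 := by rw [hc]; exact inv_ne_zero (by exact_mod_cast hn)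
    have h1 : n.toFun (c • x) (c • v) = n.toFun x v := n.scale x v hv c hc0
    have h2 : c • x ∈ S := by
      rw [hS]
      refine ⟨?_, Or.inr (hX.smul_mem x hxX c hc0)⟩
      rw [mem_sphere_zero_iff_norm, norm_smul, hc, norm_inv, Complex.norm_real, norm_norm, inv_mul_cancel₀ hn]
    obtain ⟨y, hy, hy2⟩ := Set.mem_iUnion₂.1 (ht h2)
    have h3 : n.toFun (c • x) (c • v) ≤ C y * fs (c • x) (c • v) := hy2 _ (tan_smul hX hv hc0)
    rw [h1, fs_scale x v hc0] at h3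
    refine h3.trans (mul_le_mul_of_nonneg_right ?_ (hfs0 _ _))
    have h5 : C y ≤ ∑ x ∈ t, C x := Finset.single_le_sum (f := C) (fun x hx => hC0 x (htS x hx)) hy
    linarith

end Pool.Agent.H22.W
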