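import Pool.Agent.H22.W.Liou
import Pool.Agent.H22.W.Zal
import Pool.Agent.H5.BD.CDef

/-!
# W Scale: curves of order two on surfaces with a nonpositively curved pseudo-length
-/

set_option autoImplicit false

open Topology Filter Metric

namespace Pool.Agent.H22.W

open Pool.Agent.H36.BP (EN fs wd)
open Pool.Agent.H14.PP (IsCone Chart Form Tan)
open Pool.Agent.H62.EF (MN pr Charts)
open Pool.Agent.H5.BD (BC)

variable {N : ℕ} {X : Set (EN N)}

/-- the square of the length of the derivative of an entire curve is at most its means over circles -/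
theorem subMean_curve (n : PseudoLength X) {F : ℂ → EN N} (hF : Differentiable ℂ F) (hFX : ∀ z, F z ∈ X) :
    SubMean fun z => n.toFun (F z) (deriv F z) ^ 2 := fun c r hr =>
  n.curved Set.univ F isOpen_univ hF.differentiableOn (fun z _ => hFX z) c r hr (Set.subset_univ _)

/-- **The length of the derivative of an entire curve of order two is constant.** -/
theorem const_length (hX : IsCone X) (hch : Charts X) (n : PseudoLength X) {F : ℂ → EN N} (hF : Differentiable ℂ F)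
    (hFX : ∀ z, F z ∈ X) {A : ℝ}
    (hA : ∀ r : ℝ, 0 < r → Real.circleAverage (fun z => Real.log ‖F z‖) 0 r ≤ A * (1 + r ^ 2)) (z w : ℂ) :
    n.toFun (F z) (deriv F z) = n.toFun (F w) (deriv F w) := by
  obtain ⟨C, hC, hb⟩ := n.bound hX hch
  have h0 : ∀ z, F z ≠ 0 := fun z h => hX.zero_notMem (h ▸ hFX z)
  have hn0 : ∀ z, 0 ≤ n.toFun (F z) (deriv F z) := fun z => n.nonneg _ _ (tan_entire hF hFX z)
  have h1 := const_of_orderTwo hF h0 ((n.continuous_curve hF hFX).pow 2) (subMean_curve n hF hFX)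
    (fun z => sq_nonneg _) (C := C ^ 2) (fun z => by
      rw [← mul_pow]
      exact pow_le_pow_left₀ (hn0 z) (hb _ _ (tan_entire hF hFX z)) 2) hA z w
  exact (pow_left_inj₀ (hn0 z) (hn0 w) two_ne_zero).1 h1

/-- **The length of the derivative of a Brody curve is constant.** -/
theorem const_brody (hX : IsCone X) (hch : Charts X) (n : PseudoLength X) {F : ℂ → EN N} (hF : Differentiable ℂ F)
    (hFX : ∀ z, F z ∈ X) {L : ℝ} (hL : ∀ z, fs (F z) (deriv F z) ≤ L) (z w : ℂ) :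
    n.toFun (F z) (deriv F z) = n.toFun (F w) (deriv F w) := by
  obtain ⟨C, hC, hb⟩ := n.bound hX hch
  have hn0 : ∀ z, 0 ≤ n.toFun (F z) (deriv F z) := fun z => n.nonneg _ _ (tan_entire hF hFX z)
  have hle : ∀ z, n.toFun (F z) (deriv F z) ≤ C * L := fun z =>
    (hb _ _ (tan_entire hF hFX z)).trans (mul_le_mul_of_nonneg_left (hL z) hC.le)
  have hc := (n.continuous_curve hF hFX).pow 2
  have h1 := const_of_avg hc (subMean_curve n hF hFX) (fun z => sq_nonneg _) (K := (C * L) ^ 2) (fun t₀ =>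
    ⟨t₀, le_rfl, Real.circleAverage_mono_on_of_le_circle hc.continuousOn.circleIntegrable' fun x _ =>
      pow_le_pow_left₀ (hn0 x) (hle x) 2⟩) z w
  exact (pow_left_inj₀ (hn0 z) (hn0 w) two_ne_zero).1 h1

/-- a lower bound of the derivative -/
theorem exists_lower (hX : IsCone X) (hch : Charts X) (n : PseudoLength X) {b : ℝ} (hb : 0 < b) :
    ∃ c : ℝ, 0 < c ∧ ∀ F : ℂ → EN N, Differentiable ℂ F → (∀ z, F z ∈ X) →
      (∀ z, n.toFun (F z) (deriv F z) = b) → ∀ z, c ≤ fs (F z) (deriv F z) := by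
  obtain ⟨C, hC, hbd⟩ := n.bound hX hch
  refine ⟨b / C, div_pos hb hC, fun F hF hFX h z => ?_⟩
  have h1 := hbd _ _ (tan_entire hF hFX z)
  rw [h z] at h1
  rw [div_le_iff₀ hC]
  linarith

/-- a length which is positive on the vectors of positive Fubini-Study length has no null curves -/
theorem noNullBrody_of_pos (n : PseudoLength X) (hn : ∀ x v, Tan X x v → fs x v ≠ 0 → 0 < n.toFun x v)
    (hconst : ∀ F : ℂ → EN N, Differentiable ℂ F → (∀ z, F z ∈ X) → (∀ z, fs (F z) (deriv F z) = 0) → ∀ z w, ∃ c : ℂ, F z = c • F w) :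
    n.NoNullBrody := by
  intro F hF hFX _ h0
  refine hconst F hF hFX fun z => ?_
  by_contra hcon
  have := hn _ _ (tan_entire hF hFX z) hcon
  rw [h0 z] at this
  exact lt_irrefl _ this

/-- **Curves of order two, after a change of the scale, have bounded distortion.** -/
theorem exists_scale (hX : IsCone X) (hch : Charts X) (n : PseudoLength X) (hNT : n.NoNullBrody) :
    ∃ c L : ℝ, 0 < c ∧ 0 < L ∧ ∀ F : ℂ → EN N, Differentiable ℂ F → (∀ z, F z ∈ X) →
      (∃ A : ℝ, ∀ r : ℝ, 0 < r → Real.circleAverage (fun z => Real.log ‖F z‖) 0 r ≤ A * (1 + r ^ 2)) →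
      (¬ ∀ z, fs (F z) (deriv F z) = 0) → ∃ a : ℂ, a ≠ 0 ∧ (fun z => F (a * z)) ∈ BC X c L := by
  obtain ⟨L, hL, hlip⟩ := exists_lipschitz hX n hNT
  obtain ⟨c, hc, hlow⟩ := exists_lower hX hch n one_pos
  refine ⟨c, L, hc, hL, fun F hF hFX hA hne => ?_⟩
  obtain ⟨A, hA⟩ := hA
  obtain ⟨b, hb⟩ : ∃ b : ℝ, b = n.toFun (F 0) (deriv F 0) := ⟨_, rfl⟩
  have hconst : ∀ z, n.toFun (F z) (deriv F z) = b := fun z => by
    rw [hb]
    exact const_length hX hch n hF hFX hA z 0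
  have hb0 : 0 ≤ b := by
    rw [hb]
    exact n.nonneg _ _ (tan_entire hF hFX 0)
  have hscale : ∀ a : ℂ, Differentiable ℂ (fun z => F (0 + a * z)) ∧
      ∀ z, n.toFun (F (0 + a * z)) (deriv (fun z => F (0 + a * z)) z) = ‖a‖ * b := fun a =>
    ⟨hF.comp ((differentiable_id.const_mul a).const_add 0), fun z => by rw [n.comp_affine hF hFX a 0 z, hconst]⟩
  rcases hb0.eq_or_lt with h0 | hpos
  · exfalso
    apply hne
    intro z₀
    by_contra hz₀
    have hfs0 : 0 ≤ fs (F z₀) (deriv F z₀) := Pool.Agent.H36.BP.fs_nonneg _ _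
    have hpos : 0 < fs (F z₀) (deriv F z₀) := lt_of_le_of_ne hfs0 (Ne.symm hz₀)
    obtain ⟨a, ha⟩ : ∃ a : ℝ, a = (L + 1) / fs (F z₀) (deriv F z₀) := ⟨_, rfl⟩
    have ha0 : 0 < a := by rw [ha]; positivity
    obtain ⟨hd, hv⟩ := hscale (a : ℂ)
    have h1 := hlip _ hd (fun z => hFX _) (fun z => by rw [hv z, ← h0, mul_zero]; exact zero_le_one) (z₀ / a)
    have h2 : (0 + (a : ℂ) * (z₀ / a)) = z₀ := by
      have : (a : ℂ) ≠ 0 := by exact_mod_cast ha0.ne'
      field_simp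
      ring
    have h3 : HasDerivAt (fun ζ : ℂ => 0 + (a : ℂ) * ζ) (a : ℂ) (z₀ / a) := by
      simpa using ((hasDerivAt_id (z₀ / (a : ℂ))).const_mul (a : ℂ)).const_add 0
    have h4 : deriv (fun ζ => F (0 + (a : ℂ) * ζ)) (z₀ / a) = (a : ℂ) • deriv F (0 + (a : ℂ) * (z₀ / a)) :=
      ((hF (0 + (a : ℂ) * (z₀ / a))).hasDerivAt.scomp (z₀ / (a : ℂ)) h3).deriv
    rw [h4, h2, Pool.Agent.H36.BP.fs_smul_right, Complex.norm_real, Real.norm_of_nonneg ha0.le, ha,
      div_mul_cancel₀ _ hpos.ne'] at h1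
    linarith
  · have ha : (((b⁻¹ : ℝ) : ℂ)) ≠ 0 := by
      exact_mod_cast (inv_pos.2 hpos).ne'
    obtain ⟨hd, hv⟩ := hscale ((b⁻¹ : ℝ) : ℂ)
    have hv1 : ∀ z, n.toFun (F (0 + ((b⁻¹ : ℝ) : ℂ) * z)) (deriv (fun z => F (0 + ((b⁻¹ : ℝ) : ℂ) * z)) z) = 1 := fun z => by
      rw [hv z, Complex.norm_real, Real.norm_of_nonneg (inv_pos.2 hpos).le, inv_mul_cancel₀ hpos.ne']
    have heq : (fun z => F (((b⁻¹ : ℝ) : ℂ) * z)) = fun z => F (0 + ((b⁻¹ : ℝ) : ℂ) * z) := by
      funext z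
      rw [zero_add]
    refine ⟨((b⁻¹ : ℝ) : ℂ), ha, ?_⟩
    rw [heq]
    exact ⟨hd, fun z => hFX _, fun z => ⟨hlow _ hd (fun z => hFX _) hv1 z, hlip _ hd (fun z => hFX _) (fun z => (hv1 z).le) z⟩⟩

end Pool.Agent.H22.W
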