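import Mathlib.Analysis.Complex.JensenFormula
import Mathlib.Analysis.SpecialFunctions.Pow.Real
import Mathlib.Analysis.SpecialFunctions.Pow.Continuity

/-!
# W Pow: powers of the modulus of a holomorphic function have the sub-mean value property
-/

set_option autoImplicit false

open Topology Filter Metric

namespace Pool.Agent.H22.W

theorem log_le_avg {h : ℂ → ℂ} {c : ℂ} {r : ℝ} (hr : 0 < r) (hh : AnalyticOnNhd ℂ h (closedBall c r)) (h0 : h c ≠ 0) :
    Real.log ‖h c‖ ≤ Real.circleAverage (fun z => Real.log ‖h z‖) c r := by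
  have hr' : |r| = r := abs_of_pos hr
  rw [AnalyticOnNhd.circleAverage_log_norm hr.ne' (by rwa [hr']) h0]
  have h1 : 0 ≤ ∑ᶠ u, MeromorphicOn.divisor h (closedBall c |r|) u * Real.log (r * ‖c - u‖⁻¹) := by
    refine finsum_nonneg fun u => ?_
    rw [hr']
    by_cases hu : u ∈ closedBall c r
    · refine mul_nonneg ?_ ?_
      · have := MeromorphicOn.AnalyticOnNhd.divisor_nonneg hh u
        exact_mod_cast this
      · rcases eq_or_ne u c with rfl | huc
        · rw [sub_self, norm_zero, inv_zero, mul_zero, Real.log_zero]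
        · have h2 : 0 < ‖c - u‖ := norm_pos_iff.2 (sub_ne_zero.2 huc.symm)
          have h3 : ‖c - u‖ ≤ r := by
            rw [← dist_eq_norm, dist_comm]
            exact hu
          apply Real.log_nonneg
          rw [← div_eq_mul_inv, one_le_div h2]
          exact h3
    · have h4 : MeromorphicOn.divisor h (closedBall c r) u = 0 := Function.locallyFinsuppWithin.apply_eq_zero_of_notMem _ hu
      rw [h4, Int.cast_zero, zero_mul]
  linarith

theorem rpow_le_avg {h : ℂ → ℂ} {c : ℂ} {r p : ℝ} (hr : 0 < r) (hp : 0 < p) (hh : AnalyticOnNhd ℂ h (closedBall c r)) :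
    ‖h c‖ ^ p ≤ Real.circleAverage (fun z => ‖h z‖ ^ p) c r := by
  have hr' : |r| = r := abs_of_pos hr
  rcases eq_or_ne (h c) 0 with h0 | h0
  · rw [h0, norm_zero, Real.zero_rpow hp.ne']
    exact Real.circleAverage_nonneg_of_nonneg fun x _ => Real.rpow_nonneg (norm_nonneg _) _
  obtain ⟨a, ha⟩ : ∃ a : ℝ, a = ‖h c‖ := ⟨_, rfl⟩
  have ha0 : 0 < a := by rw [ha]; exact norm_pos_iff.2 h0
  have hlog := log_le_avg hr hh h0
  obtain ⟨f₂, hf₂⟩ : ∃ f₂ : ℂ → ℝ, f₂ = fun z => (a ^ p * (1 - p * Real.log a)) + (a ^ p * p) * Real.log ‖h z‖ := ⟨_, rfl⟩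
  obtain ⟨f₃, hf₃⟩ : ∃ f₃ : ℂ → ℝ, ∀ z, f₃ z = if h z = 0 then 0 else f₂ z := ⟨_, fun _ => rfl⟩
  have hsub : sphere c |r| ⊆ closedBall c r := by
    rw [hr']
    exact sphere_subset_closedBall
  have hci : CircleIntegrable (fun z => Real.log ‖h z‖) c r :=
    (hh.mono hsub).meromorphicOn.circleIntegrable_log_norm
  have hci2 : CircleIntegrable (fun z => (a ^ p * p) * Real.log ‖h z‖) c r := hci.const_mul (a ^ p * p)
  have hf₂i : CircleIntegrable f₂ c r := by
    rw [hf₂]
    exact (circleIntegrable_const _ _ _).add hci2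
  have hco : f₂ =ᶠ[codiscreteWithin (sphere c |r|)] f₃ := by
    have h1 := hh.preimage_zero_mem_codiscreteWithin h0 (mem_closedBall_self hr.le)
      ⟨⟨c, mem_closedBall_self hr.le⟩, (convex_closedBall c r).isPreconnected⟩
    filter_upwards [codiscreteWithin_mono hsub h1] with z hz
    have hz' : h z ≠ 0 := hz
    rw [hf₃, if_neg hz']
  have hf₃i : CircleIntegrable f₃ c r := hf₂i.congr_codiscreteWithin hco
  have hcont : ContinuousOn (fun z => ‖h z‖ ^ p) (sphere c |r|) := by
    have h1 : ContinuousOn h (sphere c |r|) := hh.continuousOn.mono hsub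
    exact h1.norm.rpow_const fun x _ => Or.inr hp.le
  have h1 : Real.circleAverage f₃ c r ≤ Real.circleAverage (fun z => ‖h z‖ ^ p) c r := by
    refine Real.circleAverage_mono hf₃i hcont.circleIntegrable' fun z _ => ?_
    rw [hf₃]
    split_ifs with hz
    · exact Real.rpow_nonneg (norm_nonneg _) _
    · rw [hf₂]
      have hz0 : 0 < ‖h z‖ := norm_pos_iff.2 hz
      have h2 : ‖h z‖ ^ p = a ^ p * Real.exp (p * (Real.log ‖h z‖ - Real.log a)) := by
        rw [Real.rpow_def_of_pos hz0, Real.rpow_def_of_pos ha0, ← Real.exp_add]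
        congr 1
        ring
      have h3 := Real.add_one_le_exp (p * (Real.log ‖h z‖ - Real.log a))
      have h4 : 0 < a ^ p := Real.rpow_pos_of_pos ha0 p
      have h5 := mul_le_mul_of_nonneg_left h3 h4.le
      show (a ^ p * (1 - p * Real.log a)) + (a ^ p * p) * Real.log ‖h z‖ ≤ ‖h z‖ ^ p
      rw [h2]
      refine le_trans (le_of_eq ?_) h5
      ring
  refine le_trans ?_ h1
  rw [← Real.circleAverage_congr_codiscreteWithin hco hr.ne', hf₂]
  have h2 : Real.circleAverage (fun z => (a ^ p * (1 - p * Real.log a)) + (a ^ p * p) * Real.log ‖h z‖) c r =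
      (a ^ p * (1 - p * Real.log a)) + (a ^ p * p) * Real.circleAverage (fun z => Real.log ‖h z‖) c r := by
    rw [Real.circleAverage_fun_add (circleIntegrable_const _ _ _) hci2, Real.circleAverage_const]
    have h3 : (fun z => (a ^ p * p) * Real.log ‖h z‖) = fun z => (a ^ p * p) • (fun z => Real.log ‖h z‖) z := rfl
    rw [h3, Real.circleAverage_fun_smul, smul_eq_mul]
  rw [h2, ← ha]
  rw [← ha] at hlog
  have h4 : 0 < a ^ p := Real.rpow_pos_of_pos ha0 p
  have h5 := mul_le_mul_of_nonneg_left hlog (by positivity : 0 ≤ a ^ p * p)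
  linarith

end Pool.Agent.H22.W
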