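import Pool.Agent.H22.W.Def
import Pool.Agent.H22.W.Pow
import Pool.Agent.H92.TH.Zal

/-!
# W Sym: the pseudo-length of a family of symmetric differentials

`n (x, v) ^ 2 = ∑ j, ‖θ_j (x, v)‖ ^ (2 / m_j)`.
-/

set_option autoImplicit false

open Topology Filter Metric

namespace Pool.Agent.H22.W

open Pool.Agent.H36.BP (EN fs wd)
open Pool.Agent.H14.PP (IsCone Chart Form Tan CurveAt IsOpenPart)
open Pool.Agent.H62.EF (Charts)
open Pool.Agent.H92.TH (SymDiff tC tC_an NoTangentBrody)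

variable {N : ℕ} {X : Set (EN N)}

theorem symDiff_continuousOn (hX : IsCone X) (hch : Charts X) {m : ℕ} (θ : SymDiff X m) :
    ContinuousOn (fun p : EN N × EN N => θ.toFun p.1 p.2) {p | Tan X p.1 p.2} := by
  rintro ⟨x₀, v₀⟩ h₀
  have h₀' : Tan X x₀ v₀ := h₀
  obtain ⟨χ, hU, hq0⟩ := hch x₀ (tan_mem h₀')
  have hq := χ.q_an x₀ hU
  have hp : χ.q x₀ ∈ ball (0 : ℂ × ℂ) 2 := by
    rw [hq0]
    exact mem_ball_self two_pos
  have h1 : Tendsto (fun y : EN N × EN N => χ.q y.1) (𝓝 (x₀, v₀)) (𝓝 (χ.q x₀)) :=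
    hq.continuousAt.tendsto.comp continuousAt_fst.tendsto
  have h2 : Tendsto (fun y : EN N × EN N => fderiv ℂ χ.q y.1) (𝓝 (x₀, v₀)) (𝓝 (fderiv ℂ χ.q x₀)) :=
    hq.fderiv.continuousAt.tendsto.comp continuousAt_fst.tendsto
  have hcb : Continuous fun p : (EN N →L[ℂ] (ℂ × ℂ)) × EN N => p.1 p.2 := isBoundedBilinearMap_apply.continuous
  have h3 : Tendsto (fun y : EN N × EN N => fderiv ℂ χ.q y.1 y.2) (𝓝 (x₀, v₀)) (𝓝 (fderiv ℂ χ.q x₀ v₀)) :=
    (hcb.tendsto (fderiv ℂ χ.q x₀, v₀)).comp (h2.prodMk_nhds continuousAt_snd.tendsto)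
  have h4 : Tendsto (fun y : EN N × EN N => tC θ χ (χ.q y.1, fderiv ℂ χ.q y.1 y.2)) (𝓝 (x₀, v₀))
      (𝓝 (tC θ χ (χ.q x₀, fderiv ℂ χ.q x₀ v₀))) :=
    (tC_an θ χ hp (fderiv ℂ χ.q x₀ v₀)).continuousAt.tendsto.comp (h1.prodMk_nhds h3)
  have h5 : θ.toFun x₀ v₀ = tC θ χ (χ.q x₀, fderiv ℂ χ.q x₀ v₀) := SymDiff.eq_tC hX θ χ h₀' hU
  show Tendsto (fun p : EN N × EN N => θ.toFun p.1 p.2) (𝓝[{p | Tan X p.1 p.2}] (x₀, v₀)) (𝓝 (θ.toFun x₀ v₀))
  rw [h5]
  refine (h4.mono_left nhdsWithin_le_nhds).congr' ?_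
  have h6 : ∀ᶠ y : EN N × EN N in 𝓝 (x₀, v₀), y.1 ∈ χ.U := continuousAt_fst.eventually (χ.isOpen_U.mem_nhds hU)
  filter_upwards [nhdsWithin_le_nhds h6, self_mem_nhdsWithin] with y hy1 hy2
  exact (SymDiff.eq_tC hX θ χ hy2 hy1).symm

theorem pow_two_div {m : ℕ} (hm : 1 ≤ m) {t : ℝ} (ht : 0 ≤ t) : (t ^ m) ^ ((2 : ℝ) / m) = t ^ 2 := by
  have hm0 : (m : ℝ) ≠ 0 := by exact_mod_cast (by omega : m ≠ 0)
  rw [← Real.rpow_natCast, ← Real.rpow_mul ht, mul_div_cancel₀ _ hm0, ← Real.rpow_natCast]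
  norm_num

/-- **The pseudo-length of a family of symmetric differentials.** -/
noncomputable def symLength (hX : IsCone X) (hch : Charts X) {k : ℕ} {m : Fin k → ℕ} (hm : ∀ j, 1 ≤ m j)
    (θ : ∀ j, SymDiff X (m j)) : PseudoLength X where
  toFun x v := Real.sqrt (∑ j, ‖(θ j).toFun x v‖ ^ ((2 : ℝ) / m j))
  nonneg _ _ _ := Real.sqrt_nonneg _
  add_smul x v h a := by
    have h1 : ∀ j, (θ j).toFun x (v + a • x) = (θ j).toFun x v := fun j => (θ j).add_smul x (tan_mem h) v h a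
    simp only [h1]
  smul x v h a := by
    have h1 : ∀ j, ‖(θ j).toFun x (a • v)‖ ^ ((2 : ℝ) / m j) = ‖a‖ ^ 2 * ‖(θ j).toFun x v‖ ^ ((2 : ℝ) / m j) := fun j => by
      rw [(θ j).smul x (tan_mem h) v h a, norm_mul, norm_pow, Real.mul_rpow (by positivity) (norm_nonneg _),
        pow_two_div (hm j) (norm_nonneg _)]
    simp only [h1]
    rw [← Finset.mul_sum, Real.sqrt_mul (by positivity), Real.sqrt_sq (norm_nonneg _)]
  scale x v h c hc := by
    have h1 : ∀ j, (θ j).toFun (c • x) (c • v) = (θ j).toFun x v := fun j => (θ j).scale x (tan_mem h) v h c hc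
    simp only [h1]
  continuous := by
    refine Real.continuous_sqrt.comp_continuousOn (continuousOn_finsetSum _ fun j _ => ?_)
    refine (symDiff_continuousOn hX hch (θ j)).norm.rpow_const fun x _ => Or.inr ?_
    positivity
  curved U F hU hF hFX c r hr hc := by
    have h0 : ∀ z, 0 ≤ ∑ j, ‖(θ j).toFun (F z) (deriv F z)‖ ^ ((2 : ℝ) / m j) := fun z =>
      Finset.sum_nonneg fun j _ => Real.rpow_nonneg (norm_nonneg _) _
    simp only [Real.sq_sqrt (h0 _)]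
    have han : ∀ j, AnalyticOnNhd ℂ (fun z => (θ j).toFun (F z) (deriv F z)) (closedBall c r) := by
      intro j z hz
      have hz' : U ∈ 𝓝 z := hU.mem_nhds (hc hz)
      refine (θ j).curve_an hX hch ⟨hF.analyticAt hz', ?_⟩
      filter_upwards [hz'] with w hw using hFX w hw
    have hsum : Real.circleAverage (fun z => ∑ j, ‖(θ j).toFun (F z) (deriv F z)‖ ^ ((2 : ℝ) / m j)) c r =
        ∑ j, Real.circleAverage (fun z => ‖(θ j).toFun (F z) (deriv F z)‖ ^ ((2 : ℝ) / m j)) c r := by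
      refine Real.circleAverage_fun_sum fun j _ => ?_
      have h2 : sphere c |r| ⊆ closedBall c r := by
        rw [abs_of_pos hr]
        exact sphere_subset_closedBall
      refine ContinuousOn.circleIntegrable' ?_
      exact ((han j).continuousOn.mono h2).norm.rpow_const fun x _ => Or.inr (by positivity)
    rw [hsum]
    refine Finset.sum_le_sum fun j _ => rpow_le_avg hr ?_ (han j)
    have h3 : (0 : ℝ) < m j := by exact_mod_cast (by have := hm j; omega : 0 < m j)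
    positivity

theorem symLength_zero (hX : IsCone X) (hch : Charts X) {k : ℕ} {m : Fin k → ℕ} (hm : ∀ j, 1 ≤ m j)
    (θ : ∀ j, SymDiff X (m j)) {x v : EN N} : (symLength hX hch hm θ).toFun x v = 0 ↔ ∀ j, (θ j).toFun x v = 0 := by
  have h0 : ∀ j, 0 ≤ ‖(θ j).toFun x v‖ ^ ((2 : ℝ) / m j) := fun j => Real.rpow_nonneg (norm_nonneg _) _
  show Real.sqrt (∑ j, ‖(θ j).toFun x v‖ ^ ((2 : ℝ) / m j)) = 0 ↔ _
  rw [Real.sqrt_eq_zero (Finset.sum_nonneg fun j _ => h0 j), Finset.sum_eq_zero_iff_of_nonneg fun j _ => h0 j]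
  constructor
  · intro h j
    have h1 := h j (Finset.mem_univ j)
    have h3 : (0 : ℝ) < m j := by exact_mod_cast (by have := hm j; omega : 0 < m j)
    rw [Real.rpow_eq_zero (norm_nonneg _) (by positivity)] at h1
    exact norm_eq_zero.1 h1
  · intro h j _
    have h3 : (0 : ℝ) < m j := by exact_mod_cast (by have := hm j; omega : 0 < m j)
    rw [h j, norm_zero, Real.zero_rpow (by positivity)]

theorem noNullBrody_symLength (hX : IsCone X) (hch : Charts X) {k : ℕ} {m : Fin k → ℕ} (hm : ∀ j, 1 ≤ m j)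
    (θ : ∀ j, SymDiff X (m j)) (hNT : NoTangentBrody θ) : (symLength hX hch hm θ).NoNullBrody := by
  intro F hF hFX hF1 h0
  exact hNT F hF hFX hF1 fun j z => (symLength_zero hX hch hm θ).1 (h0 z) j

end Pool.Agent.H22.W
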