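import Pool.Agent.H22.W.Mean
import Pool.Agent.H15.V.Liou

/-!
# W Liou: sub-mean functions which are bounded by the square of the derivative of a curve of order two are constant
-/

set_option autoImplicit false

open Topology Filter Metric

namespace Pool.Agent.H22.W

open Pool.Agent.H36.BP (EN fs wd)
open Pool.Agent.H15.V (rot norm_rot riemann bar barrier circleAverage_rot)

variable {N : ℕ}

/-- `u` is continuous, `0 ≤ u ≤ C fs (F, F') ^ 2`, at most its means over circles, and `F` has order at most two: `u` is constant. -/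
theorem const_of_orderTwo {F : ℂ → EN N} (hF : Differentiable ℂ F) (h0 : ∀ z, F z ≠ 0) {u : ℂ → ℝ} (hu : Continuous u)
    (hs : SubMean u) (hu0 : ∀ z, 0 ≤ u z) {C : ℝ} (hC : ∀ z, u z ≤ C * fs (F z) (deriv F z) ^ 2) {A : ℝ}
    (hA : ∀ r : ℝ, 0 < r → Real.circleAverage (fun z => Real.log ‖F z‖) 0 r ≤ A * (1 + r ^ 2)) (z w : ℂ) : u z = u w := by
  obtain ⟨K, hK⟩ : ∃ K : ℝ, K = max C 1 := ⟨_, rfl⟩
  have hK0 : 0 < K := by rw [hK]; exact lt_max_of_lt_right one_pos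
  have hle : ∀ z, u z ≤ K * fs (F z) (deriv F z) ^ 2 := fun z => by
    refine (hC z).trans (mul_le_mul_of_nonneg_right ?_ (by positivity))
    rw [hK]
    exact le_max_left _ _
  obtain ⟨b, hb⟩ : ∃ b : ℝ, b = |A| + 1 := ⟨_, rfl⟩
  have hb0 : 0 < b := by rw [hb]; positivity
  refine const_of_avg hu hs hu0 (K := 2 * b * K + 1) ?_ z w
  by_contra hcon
  push Not at hcon
  obtain ⟨t₀, ht₀⟩ := hcon
  obtain ⟨t₁, ht₁⟩ : ∃ t₁ : ℝ, t₁ = max t₀ 1 := ⟨_, rfl⟩
  have ht : 0 < t₁ := by rw [ht₁]; exact lt_max_of_lt_right one_pos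
  have hgrow : ∀ t, t₁ ≤ t → 2 * b * K + 1 ≤ Real.circleAverage u 0 t := fun t h => by
    refine (ht₀ t ?_).le
    rw [ht₁] at h
    exact (le_max_left _ _).trans h
  have hineq : ∀ r, t₁ < r → bar b t₁ r ≤ A * (1 + r ^ 2) - Real.log ‖F 0‖ + 2 := by
    intro r hr
    obtain ⟨n, hn, hnr⟩ := riemann hu (ht.trans hr) one_pos
    have hn0 : (0 : ℝ) < n := by exact_mod_cast hn
    have h1 := barrier hF h0 hn hb0 ht hr (by
      intro z hz1 hz2
      have h2 := (abs_le.1 (hnr z hz2)).1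
      have h3 := hgrow ‖z‖ hz1
      have h4 : (n : ℝ)⁻¹ * ∑ j ∈ Finset.range n, u (rot n j * z) ≤
          (n : ℝ)⁻¹ * ∑ j ∈ Finset.range n, K * fs (F (rot n j * z)) (deriv F (rot n j * z)) ^ 2 :=
        mul_le_mul_of_nonneg_left (Finset.sum_le_sum fun j _ => hle _) (inv_pos.2 hn0).le
      have h5 : (n : ℝ)⁻¹ * ∑ j ∈ Finset.range n, K * fs (F (rot n j * z)) (deriv F (rot n j * z)) ^ 2 =
          2 * K * ((n : ℝ)⁻¹ * ∑ j ∈ Finset.range n, fs (F (rot n j * z)) (deriv F (rot n j * z)) ^ 2 / 2) := by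
        rw [← Finset.mul_sum, ← Finset.sum_div]
        ring
      rw [h5] at h4
      have h6 : 2 * K * b ≤ 2 * K * ((n : ℝ)⁻¹ * ∑ j ∈ Finset.range n, fs (F (rot n j * z)) (deriv F (rot n j * z)) ^ 2 / 2) := by
        linarith
      exact le_of_mul_le_mul_left h6 (by positivity))
    have h2 := hA r (ht.trans hr)
    linarith
  obtain ⟨D, hD⟩ : ∃ D : ℝ, D = b * t₁ ^ 2 + |A| + |Real.log ‖F 0‖| + 2 := ⟨_, rfl⟩
  have hD0 : 0 < D := by
    have h1 := abs_nonneg A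
    have h2 := abs_nonneg (Real.log ‖F 0‖)
    have h3 : 0 < b * t₁ ^ 2 := by positivity
    rw [hD]
    linarith
  obtain ⟨r, hr⟩ : ∃ r : ℝ, r = 2 * b * t₁ + D + 1 + t₁ := ⟨_, rfl⟩
  have hr1 : t₁ < r := by
    have : 0 < 2 * b * t₁ := by positivity
    linarith
  have hr0 : 0 < r := ht.trans hr1
  have h1 := hineq r hr1
  rw [bar] at h1
  have hlog : Real.log (r / t₁) ≤ r / t₁ := (Real.log_le_sub_one_of_pos (by positivity)).trans (by linarith)
  have h2 : 2 * t₁ ^ 2 * Real.log (r / t₁) ≤ 2 * t₁ * r := by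
    calc 2 * t₁ ^ 2 * Real.log (r / t₁) ≤ 2 * t₁ ^ 2 * (r / t₁) := mul_le_mul_of_nonneg_left hlog (by positivity)
      _ = 2 * t₁ * r := by field_simp
  have h3 : b * (r ^ 2 - t₁ ^ 2 - 2 * t₁ * r) ≤ b * (r ^ 2 - t₁ ^ 2 - 2 * t₁ ^ 2 * Real.log (r / t₁)) :=
    mul_le_mul_of_nonneg_left (by linarith) hb0.le
  have h4 : A * (1 + r ^ 2) ≤ |A| * (1 + r ^ 2) := mul_le_mul_of_nonneg_right (le_abs_self A) (by positivity)
  have h5 := neg_abs_le (Real.log ‖F 0‖)
  have h6 : b * r ^ 2 = |A| * r ^ 2 + r ^ 2 := by rw [hb]; ring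
  have h7 : r ^ 2 ≤ 2 * b * t₁ * r + D := by
    rw [hD]
    nlinarith
  have h8 : r ^ 2 = 2 * b * t₁ * r + (D + 1 + t₁) * r := by
    rw [hr]
    ring
  have h9 : D < (D + 1 + t₁) * r := by
    have hr2 : 1 ≤ r := by
      have : 0 < 2 * b * t₁ := by positivity
      linarith
    nlinarith
  linarith

end Pool.Agent.H22.W
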