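import Pool.Agent.H14.PP.ChartFs
import Pool.Agent.H14.PP.ChartBasic
import Pool.Agent.H62.EF.Defs

/-!
# W Tan: tangent vectors of a cone
-/

set_option autoImplicit false

open Topology Filter Metric

namespace Pool.Agent.H22.W

open Pool.Agent.H36.BP (EN fs wd)
open Pool.Agent.H14.PP (IsCone Chart Tan CurveAt IsOpenPart)
open Pool.Agent.H62.EF (Charts)

variable {N : ℕ} {X : Set (EN N)}

theorem isOpenPart_self (hX : IsCone X) : IsOpenPart X X :=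
  ⟨subset_rfl, hX.smul_mem, fun _ _ => Eventually.of_forall fun _ h => h⟩

/-- scaling of tangent vectors -/
theorem tan_smul (hX : IsCone X) {x v : EN N} (h : Tan X x v) {c : ℂ} (hc : c ≠ 0) :
    Tan X (c • x) (c • v) := by
  obtain ⟨F, ⟨hF, hFX⟩, h0, h1⟩ := h
  have hFc : AnalyticAt ℂ (fun z => c • F z) 0 := analyticAt_const.fun_smul hF
  refine ⟨fun z => c • F z, ⟨hFc, ?_⟩, by simp [h0], ?_⟩
  · filter_upwards [hFX] with z hz
    exact hX.smul_mem _ hz c hc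
  · rw [deriv_fun_const_smul c hF.differentiableAt, h1]

theorem tan_mem {x v : EN N} (h : Tan X x v) : x ∈ X := by
  obtain ⟨F, hF, h0, -⟩ := h
  rw [← h0]
  exact hF.2.self_of_nhds

/-- the tangent vectors of a curve -/
theorem tan_curve {F : ℂ → EN N} {z₀ : ℂ} (hF : CurveAt X F z₀) : Tan X (F z₀) (deriv F z₀) := by
  obtain ⟨hF1, hF2⟩ := hF
  have hl : AnalyticAt ℂ (fun z : ℂ => z₀ + z) 0 := by fun_prop
  have h0 : z₀ + (0 : ℂ) = z₀ := add_zero _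
  refine ⟨fun z => F (z₀ + z), ⟨?_, ?_⟩, by simp, ?_⟩
  · have h1 : AnalyticAt ℂ F (z₀ + 0) := by rw [h0]; exact hF1
    exact h1.fun_comp hl
  · have h2 : Tendsto (fun z : ℂ => z₀ + z) (𝓝 0) (𝓝 z₀) := by
      have := hl.continuousAt.tendsto
      simpa using this
    exact h2.eventually hF2
  · have h3 : deriv (fun z => F (z₀ + z)) 0 = deriv F (z₀ + 0) := deriv_comp_const_add _ _ _
    rw [h3, h0]

/-- the tangent vectors in a chart -/
theorem tan_chart (hX : IsCone X) (χ : Chart X) {x v : EN N} (h : Tan X x v) (hU : x ∈ χ.U) :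
    χ.q x ∈ ball (0 : ℂ × ℂ) 2 ∧ ∃ c a : ℂ, c ≠ 0 ∧ x = c • χ.σ (χ.q x) ∧
      v = c • fderiv ℂ χ.σ (χ.q x) (fderiv ℂ χ.q x v) + a • x := by
  obtain ⟨F, hF, h0, h1⟩ := h
  subst h0
  obtain ⟨hq, hq', c, hc, hc0, hev⟩ := χ.curve hX hF hU
  obtain ⟨hball, heq⟩ := hev.self_of_nhds
  refine ⟨hball, c 0, deriv c 0 / c 0, hc0, heq, ?_⟩
  have hs : AnalyticAt ℂ χ.σ (χ.q (F 0)) := χ.σ_an _ hball
  have h2 : HasDerivAt (fun z => χ.σ (χ.q (F z))) (fderiv ℂ χ.σ (χ.q (F 0)) (deriv (fun z => χ.q (F z)) 0)) 0 :=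
    hs.differentiableAt.hasFDerivAt.comp_hasDerivAt (0 : ℂ) hq.differentiableAt.hasDerivAt
  have h3 : HasDerivAt (fun z => c z • χ.σ (χ.q (F z))) (c 0 • fderiv ℂ χ.σ (χ.q (F 0)) (deriv (fun z => χ.q (F z)) 0) +
      deriv c 0 • χ.σ (χ.q (F 0))) 0 := hc.differentiableAt.hasDerivAt.smul h2
  have h4 : deriv F 0 = c 0 • fderiv ℂ χ.σ (χ.q (F 0)) (deriv (fun z => χ.q (F z)) 0) +
      deriv c 0 • χ.σ (χ.q (F 0)) := by
    have h5 : F =ᶠ[𝓝 0] fun z => c z • χ.σ (χ.q (F z)) := hev.mono fun z hz => hz.2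
    rw [h5.deriv_eq]
    exact h3.deriv
  rw [h1] at h4 hq'
  rw [← hq']
  have h6 : (deriv c 0 / c 0) • F 0 = deriv c 0 • χ.σ (χ.q (F 0)) := by
    conv_lhs => rw [heq]
    rw [smul_smul, div_mul_cancel₀ _ hc0]
  rw [h6]
  exact h4

end Pool.Agent.H22.W
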